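import Pool.Agent.H90.NaProof

set_option autoImplicit false

namespace Pool.Agent.Results.MP_5ffaeb_an.NotInherited

open Pool.Agent.H90.NaDefs

/-- Density of norm-attaining operators does not pass to one-complemented domain subspaces. -/
theorem result (𝕜 : Type) [RCLike 𝕜] :
    ¬ ∀ (X Y : Type) [NormedAddCommGroup X] [NormedSpace 𝕜 X] [CompleteSpace X]
      [NormedAddCommGroup Y] [NormedSpace 𝕜 Y] [CompleteSpace Y] (X₁ : Submodule 𝕜 X),
      OneComplemented X₁ → NADense 𝕜 X Y → NADense 𝕜 X₁ Y :=
  Pool.Agent.H90.NaProof.final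

end Pool.Agent.Results.MP_5ffaeb_an.NotInherited
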